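import Pool.Agent.H60.CM.Basic

/-!
MP_d9d403_gt, board cms_modules, row PB2: the bracket has integral zero (in a parametrization).
-/

set_option autoImplicit false

open Set Function MeasureTheory Filter Topology
open scoped Manifold ContDiff Matrix

namespace Pool.Agent.H90.CM

open Pool.Agent.H60.CM

/-- the area of a parallelogram orthogonal to the unit vector `n` -/
lemma sq_cross {a b n : V3} (hn : n ⬝ᵥ n = 1) (hu : n ⬝ᵥ a = 0) (hv : n ⬝ᵥ b = 0) :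
    (a ⨯₃ b) ⬝ᵥ (a ⨯₃ b) = ((a ⨯₃ b) ⬝ᵥ n) ^ 2 := by
  simp only [Matrix.vec3_dotProduct, cross_apply, Matrix.cons_val_zero, Matrix.cons_val_one,
    Matrix.cons_val] at hn hu hv ⊢
  linear_combination (-((a 1 * b 2 - a 2 * b 1) ^ 2 + (a 2 * b 0 - a 0 * b 2) ^ 2 +
      (a 0 * b 1 - a 1 * b 0) ^ 2)) * hn +
    ((b 0 ^ 2 + b 1 ^ 2 + b 2 ^ 2) * (n 0 * a 0 + n 1 * a 1 + n 2 * a 2) -
      2 * (n 0 * b 0 + n 1 * b 1 + n 2 * b 2) * (a 0 * b 0 + a 1 * b 1 + a 2 * b 2)) * hu +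
    ((a 0 ^ 2 + a 1 ^ 2 + a 2 ^ 2) * (n 0 * b 0 + n 1 * b 1 + n 2 * b 2)) * hv

lemma pd_smooth {F : Type} [NormedAddCommGroup F] [NormedSpace ℝ F] {O : Set E2} (hO : IsOpen O)
    {f : E2 → F} (hf : ContDiffOn ℝ ∞ f O) (i : Fin 2) :
    ContDiffOn ℝ ∞ (fun y => pd f y i) O :=
  (hf.fderiv_of_isOpen hO (by simp)).clm_apply contDiffOn_const

lemma pd_mul {O : Set E2} (hO : IsOpen O) {f g : E2 → ℝ} (hf : ContDiffOn ℝ ∞ f O)
    (hg : ContDiffOn ℝ ∞ g O) {y : E2} (hy : y ∈ O) (i : Fin 2) :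
    pd (fun z => f z * g z) y i = f y * pd g y i + g y * pd f y i := by
  have h1 : DifferentiableAt ℝ f y :=
    (hf.contDiffAt (hO.mem_nhds hy)).differentiableAt (by simp)
  have h2 : DifferentiableAt ℝ g y :=
    (hg.contDiffAt (hO.mem_nhds hy)).differentiableAt (by simp)
  unfold pd
  rw [fderiv_fun_mul h1 h2]
  simp only [add_apply, smul_apply, smul_eq_mul]

/-- compactness of the preimage of the support -/
lemma compact_pre {D : Dat} {O : Set E2} {ψ : E2 → D.S} (hψ : D.Pch O ψ) {g : D.S → ℝ}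
    (hg : tsupport g ⊆ ψ '' O) : IsCompact {y | y ∈ O ∧ ψ y ∈ tsupport g} := by
  have hc : ContinuousOn ψ O := hψ.smooth.continuousOn
  have h1 : Topology.IsOpenEmbedding (O.domRestrict ψ) := by
    refine Topology.IsOpenEmbedding.of_continuous_injective_isOpenMap
      (continuousOn_iff_continuous_domRestrict.1 hc) (injOn_iff_injective.1 hψ.inj) ?_
    intro U hU
    rw [hψ.isOpen.isOpenEmbedding_subtypeVal.isOpen_iff_image_isOpen] at hU
    have h2 := hψ.im _ (by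
      rintro _ ⟨z, _, rfl⟩
      exact z.2) hU
    rw [image_image] at h2
    exact h2
  have h3 : IsCompact ((O.domRestrict ψ) ⁻¹' tsupport g) := by
    refine h1.isInducing.isCompact_preimage' (isClosed_tsupport g).isCompact ?_
    rw [range_domRestrict]
    exact hg
  have h4 := h3.image continuous_subtype_val
  have e : Subtype.val '' ((O.domRestrict ψ) ⁻¹' tsupport g) = {y | y ∈ O ∧ ψ y ∈ tsupport g} := by
    ext y
    constructor
    · rintro ⟨z, hz, rfl⟩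
      exact ⟨z.2, hz⟩
    · rintro ⟨hy, hy'⟩
      exact ⟨⟨y, hy⟩, hy', rfl⟩
  rw [← e]
  exact h4

theorem pf_PB2 (h1 : T_PB1) (h2 : T_PGR) (h3 : T_ARE) (h4 : T_CON) (h5 : T_PDF) : T_PB2 := by
  intro D O ψ hψ g b hg hb
  have hO := hψ.isOpen
  have hgs : D.Sm g := hg.1
  have hBc : Continuous (br D.x D.N g b) := (h4 D g b hgs hb).2
  -- restriction to the patch
  have e1 : ∫ p, br D.x D.N g b p ∂D.μ = ∫ p in ψ '' O, br D.x D.N g b p ∂D.μ := by
    refine (setIntegral_eq_integral_of_forall_compl_eq_zero fun p hp => ?_).symm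
    exact br_zero fun h => hp (hg.2 h)
  rw [e1, h3 D O ψ hψ _ hBc.measurable]
  -- smoothness in the parametrization
  have hsm : ∀ {F : Type} [NormedAddCommGroup F] [NormedSpace ℝ F] (f : D.S → F), D.Sm f →
      ContDiffOn ℝ ∞ (f ∘ ψ) O := by
    intro F _ _ f hf y hy
    obtain ⟨_, _, _, _, _, h⟩ := h5 D O ψ hψ y hy
    exact (h F f hf).1 y hy
  set X : E2 → V3 := D.x ∘ ψ with hX
  have hXs : ContDiffOn ℝ ∞ X O := hsm _ D.smx
  have hNs : ContDiffOn ℝ ∞ (D.N ∘ ψ) O := hsm _ D.smN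
  have hGs : ContDiffOn ℝ ∞ (g ∘ ψ) O := hsm _ hgs
  have hBs : ContDiffOn ℝ ∞ (b ∘ ψ) O := hsm _ hb
  have hXi : ∀ (i : Fin 2) (j : Fin 3), ContDiffOn ℝ ∞ (fun y => pd X y i j) O := fun i j =>
    contDiffOn_pi.1 (pd_smooth hO hXs i) j
  have hNj : ∀ j : Fin 3, ContDiffOn ℝ ∞ (fun y => D.N (ψ y) j) O := fun j =>
    contDiffOn_pi.1 hNs j
  set t : E2 → ℝ := fun y => (pd X y 0 ⨯₃ pd X y 1) ⬝ᵥ D.N (ψ y) with ht
  have hts : ContDiffOn ℝ ∞ t O := by
    have e : t = fun y => (pd X y 0 1 * pd X y 1 2 - pd X y 0 2 * pd X y 1 1) * D.N (ψ y) 0 +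
        (pd X y 0 2 * pd X y 1 0 - pd X y 0 0 * pd X y 1 2) * D.N (ψ y) 1 +
        (pd X y 0 0 * pd X y 1 1 - pd X y 0 1 * pd X y 1 0) * D.N (ψ y) 2 := by
      funext y
      simp only [ht, Matrix.vec3_dotProduct, cross_apply, Matrix.cons_val_zero,
        Matrix.cons_val_one, Matrix.cons_val]
    rw [e]
    exact (((((hXi 0 1).mul (hXi 1 2)).sub ((hXi 0 2).mul (hXi 1 1))).mul (hNj 0)).add
      ((((hXi 0 2).mul (hXi 1 0)).sub ((hXi 0 0).mul (hXi 1 2))).mul (hNj 1))).add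
      ((((hXi 0 0).mul (hXi 1 1)).sub ((hXi 0 1).mul (hXi 1 0))).mul (hNj 2))
  -- the normal
  have hN0 : ∀ y ∈ O, ∀ i : Fin 2, D.N (ψ y) ⬝ᵥ pd X y i = 0 := by
    intro y hy i
    obtain ⟨m00, m01, m10, m11, _, h⟩ := h5 D O ψ hψ y hy
    obtain ⟨_, q0, q1⟩ := h V3 D.x D.smx
    have hn := D.cmc.normal (ψ y)
    fin_cases i
    · show D.N (ψ y) ⬝ᵥ pd X y 0 = 0
      rw [hX, q0, dotProduct_add, dotProduct_smul, dotProduct_smul, hn, hn, smul_zero, smul_zero,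
        add_zero]
    · show D.N (ψ y) ⬝ᵥ pd X y 1 = 0
      rw [hX, q1, dotProduct_add, dotProduct_smul, dotProduct_smul, hn, hn, smul_zero, smul_zero,
        add_zero]
  have hsq : ∀ y ∈ O, (pd X y 0 ⨯₃ pd X y 1) ⬝ᵥ (pd X y 0 ⨯₃ pd X y 1) = t y ^ 2 :=
    fun y hy => sq_cross (D.cmc.unit _) (hN0 y hy 0) (hN0 y hy 1)
  have ht0 : ∀ y ∈ O, t y ≠ 0 := by
    intro y hy h0
    have q := hsq y hy
    rw [h0] at q
    exact hψ.imm y hy (dotProduct_self_eq_zero.1 (by rw [q]; norm_num))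
  have haw : ∀ y ∈ O, aw X y = |t y| := by
    intro y hy
    unfold aw
    rw [hsq y hy, Real.sqrt_sq_eq_abs]
  -- the sign
  set s : E2 → ℝ := fun y => t y / Real.sqrt (t y ^ 2) with hs
  have hss : ContDiffOn ℝ ∞ s O :=
    hts.div ((hts.pow 2).sqrt fun y hy => pow_ne_zero 2 (ht0 y hy)) fun y hy => by
      rw [Real.sqrt_sq_eq_abs]
      exact abs_ne_zero.2 (ht0 y hy)
  have hs1 : ∀ y ∈ O, s y * s y = 1 := by
    intro y hy
    have q := ht0 y hy
    show t y / Real.sqrt (t y ^ 2) * (t y / Real.sqrt (t y ^ 2)) = 1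
    rw [div_mul_div_comm, Real.mul_self_sqrt (by positivity), ← pow_two,
      div_self (pow_ne_zero 2 q)]
  have hs0 : ∀ y ∈ O, ∀ i : Fin 2, pd s y i = 0 := by
    intro y hy i
    have q1 := pd_mul hO hss hss hy i
    have q2 : pd (fun z => s z * s z) y i = 0 := by
      unfold pd
      have q3 : (fun z => s z * s z) =ᶠ[𝓝 y] fun _ => (1 : ℝ) := by
        filter_upwards [hO.mem_nhds hy] with z hz
        exact hs1 z hz
      rw [q3.fderiv_eq]
      simp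
    rw [q2] at q1
    have q4 : s y ≠ 0 := by
      intro h0
      have := hs1 y hy
      rw [h0, mul_zero] at this
      exact zero_ne_one this
    have q5 : s y * pd s y i = 0 := by linarith
    exact (mul_eq_zero.1 q5).resolve_left q4
  set K : Set E2 := {y | y ∈ O ∧ ψ y ∈ tsupport g} with hK
  have hmain := h1 O K (fun y => s y * (g ∘ ψ) y) (b ∘ ψ) hO (compact_pre hψ hg.2)
    (fun y hy => hy.1) (hss.mul hGs) hBs (by
      intro y hy hyK
      have q : ψ y ∉ tsupport g := fun h => hyK ⟨hy, h⟩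
      show s y * g (ψ y) = 0
      rw [image_eq_zero_of_notMem_tsupport q, mul_zero])
  rw [← hmain]
  refine setIntegral_congr_fun hO.measurableSet fun y hy => ?_
  show br D.x D.N g b (ψ y) * aw X y = _
  rw [(h2 D O ψ hψ y hy g b hgs hb).2, haw y hy, pd_mul hO hss hGs hy, pd_mul hO hss hGs hy,
    hs0 y hy, hs0 y hy, mul_zero, add_zero, add_zero]
  have hbrk : brk (pd (D.x ∘ ψ) y 0) (pd (D.x ∘ ψ) y 1) (D.N (ψ y)) (pd (g ∘ ψ) y 0)
      (pd (g ∘ ψ) y 1) (pd (b ∘ ψ) y 0) (pd (b ∘ ψ) y 1) =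
      (pd (g ∘ ψ) y 0 * pd (b ∘ ψ) y 1 - pd (g ∘ ψ) y 1 * pd (b ∘ ψ) y 0) / t y := rfl
  rw [hbrk]
  have hsy : |t y| / t y = s y := by
    have q := ht0 y hy
    show _ = t y / Real.sqrt (t y ^ 2)
    rw [Real.sqrt_sq_eq_abs, div_eq_div_iff q (abs_ne_zero.2 q), abs_mul_abs_self]
  calc (pd (g ∘ ψ) y 0 * pd (b ∘ ψ) y 1 - pd (g ∘ ψ) y 1 * pd (b ∘ ψ) y 0) / t y * |t y| =
      (pd (g ∘ ψ) y 0 * pd (b ∘ ψ) y 1 - pd (g ∘ ψ) y 1 * pd (b ∘ ψ) y 0) * (|t y| / t y) := by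
        ring
    _ = _ := by
        rw [hsy]
        ring

end Pool.Agent.H90.CM
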