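import Pool.Agent.H60.CM.Basic

/-!
MP_d9d403_gt, board cms_modules, row WJE: the weak Jacobi equation.
-/

set_option autoImplicit false

open Set Function MeasureTheory Filter Topology
open scoped Manifold ContDiff Matrix

namespace Pool.Agent.H90.CM

open Pool.Agent.H60.CM

section

variable {S : Type} [TopologicalSpace S] [ChartedSpace (EuclideanHalfSpace 2) S]

/-- the derivative of a cross product -/
lemma dd_cross {f g : S → V3} {p : S} (hf : MD f p) (hg : MD g p) (j : Fin 3) (i : Fin 2) :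
    dd (fun q => (f q ⨯₃ g q) j) p i = (dd f p i ⨯₃ g p + f p ⨯₃ dd g p i) j := by
  have key : ∀ a b : Fin 3, dd (fun q => f q a * g q b - f q b * g q a) p i =
      (f p a * dd g p i b + g p b * dd f p i a) - (f p b * dd g p i a + g p a * dd f p i b) := by
    intro a b
    rw [dd_sub ((hf.coord a).mul (hg.coord b)) ((hf.coord b).mul (hg.coord a)),
      dd_mul (hf.coord a) (hg.coord b), dd_mul (hf.coord b) (hg.coord a), dd_coord hf, dd_coord hf,
      dd_coord hg, dd_coord hg]
  have h0 := key 1 2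
  have h1 := key 2 0
  have h2 := key 0 1
  fin_cases j
  · have e : (fun q => (f q ⨯₃ g q) 0) = fun q => f q 1 * g q 2 - f q 2 * g q 1 := by
      funext q
      simp [cross_apply]
    show dd (fun q => (f q ⨯₃ g q) 0) p i = (dd f p i ⨯₃ g p + f p ⨯₃ dd g p i) 0
    rw [e, h0]
    simp only [Pi.add_apply, cross_apply, Matrix.cons_val_zero]
    ring
  · have e : (fun q => (f q ⨯₃ g q) 1) = fun q => f q 2 * g q 0 - f q 0 * g q 2 := by
      funext q
      simp [cross_apply]
    show dd (fun q => (f q ⨯₃ g q) 1) p i = (dd f p i ⨯₃ g p + f p ⨯₃ dd g p i) 1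
    rw [e, h1]
    simp only [Pi.add_apply, cross_apply, Matrix.cons_val_one, Matrix.cons_val_zero]
    ring
  · have e : (fun q => (f q ⨯₃ g q) 2) = fun q => f q 0 * g q 1 - f q 1 * g q 0 := by
      funext q
      simp [cross_apply]
    show dd (fun q => (f q ⨯₃ g q) 2) p i = (dd f p i ⨯₃ g p + f p ⨯₃ dd g p i) 2
    rw [e, h2]
    simp only [Pi.add_apply, cross_apply, Matrix.cons_val]
    ring

/-- the continuous linear map `b × ·` -/
noncomputable def cl (b : V3) : V3 →L[ℝ] V3 := LinearMap.toContinuousLinearMap (crossProduct b)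

lemma cl_apply (b y : V3) : cl b y = b ⨯₃ y := rfl

lemma dd_k {f : S → V3} {p : S} (hf : MD f p) (a b : V3) (i : Fin 2) :
    dd (fun q => a + b ⨯₃ f q) p i = b ⨯₃ dd f p i := by
  have h1 : DifferentiableAt ℝ (fun y : V3 => a + cl b y) (f p) := by fun_prop
  have h2 := dd_comp (Φ := fun y : V3 => a + cl b y) hf h1 i
  rw [fderiv_const_add, ContinuousLinearMap.fderiv] at h2
  exact h2

lemma md_k {f : S → V3} {p : S} (hf : MD f p) (a b : V3) : MD (fun q => a + b ⨯₃ f q) p :=
  MD.comp_left (Φ := fun y : V3 => a + cl b y) hf (by fun_prop)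

end

lemma sm_k (D : Dat) {f : D.S → V3} (hf : D.Sm f) (a b : V3) : D.Sm (fun q => a + b ⨯₃ f q) :=
  Dat.Sm.comp_left D hf (Φ := fun y : V3 => a + cl b y) (by fun_prop)

lemma sm_cross (D : Dat) {f g : D.S → V3} (hf : D.Sm f) (hg : D.Sm g) (j : Fin 3) :
    D.Sm (fun q => (f q ⨯₃ g q) j) := by
  have key : ∀ a b : Fin 3, D.Sm (fun q => f q a * g q b - f q b * g q a) := fun a b =>
    Dat.Sm.sub D (Dat.Sm.mul D (Dat.Sm.coord D hf a) (Dat.Sm.coord D hg b))
      (Dat.Sm.mul D (Dat.Sm.coord D hf b) (Dat.Sm.coord D hg a))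
  fin_cases j
  · have e : (fun q => (f q ⨯₃ g q) 0) = fun q => f q 1 * g q 2 - f q 2 * g q 1 := by
      funext q
      simp [cross_apply]
    show D.Sm (fun q => (f q ⨯₃ g q) 0)
    rw [e]
    exact key 1 2
  · have e : (fun q => (f q ⨯₃ g q) 1) = fun q => f q 2 * g q 0 - f q 0 * g q 2 := by
      funext q
      simp [cross_apply]
    show D.Sm (fun q => (f q ⨯₃ g q) 1)
    rw [e]
    exact key 2 0
  · have e : (fun q => (f q ⨯₃ g q) 2) = fun q => f q 0 * g q 1 - f q 1 * g q 0 := by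
      funext q
      simp [cross_apply]
    show D.Sm (fun q => (f q ⨯₃ g q) 2)
    rw [e]
    exact key 0 1

theorem pf_WJE (h1 : T_STR) (h2 : T_JAC) (h3 : T_SYM) (h4 : T_PBR) (h5 : T_CON) : T_WJE := by
  intro D a b η hη
  have hxs := D.smx
  have hNs := D.smN
  set k : D.S → V3 := fun q => a + b ⨯₃ D.x q with hk
  have hks : D.Sm k := sm_k D hxs a b
  set c : Fin 3 → D.S → ℝ := fun j q => (k q ⨯₃ D.N q) j with hc
  have hcs : ∀ j, D.Sm (c j) := fun j => sm_cross D hks hNs j
  set P : Fin 3 → D.S → ℝ := fun j q => b j + (-(2 * D.H)) * c j q with hP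
  set R : Fin 3 → D.S → ℝ := fun j q => (-1) * c j q with hR
  have hPs : ∀ j, D.Sm (P j) := fun j =>
    Dat.Sm.add D (Dat.Sm.const D (b j)) (Dat.Sm.const_mul D (hcs j) _)
  have hRs : ∀ j, D.Sm (R j) := fun j => Dat.Sm.const_mul D (hcs j) _
  set f : D.S → ℝ := kf D.x D.N a b with hf
  have hfs : D.Sm f := D.smkf a b
  have hxj : ∀ j : Fin 3, D.Sm (fun q => D.x q j) := fun j => Dat.Sm.coord D hxs j
  have hNj : ∀ j : Fin 3, D.Sm (fun q => D.N q j) := fun j => Dat.Sm.coord D hNs j
  -- the pointwise identity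
  have key : ∀ p, gr D.x f η p = sf D.x D.N p * f p * η p -
      ∑ j, br D.x D.N (fun q => P j q * η q) (fun q => D.x q j) p -
      ∑ j, br D.x D.N (fun q => R j q * η q) (fun q => D.N q j) p := by
    intro p
    by_cases hp : p ∈ D.int
    · have hF := h3 D p hp
      have hmx := Dat.Sm.md D hxs p
      have hmN := Dat.Sm.md D hNs p
      have hmk := Dat.Sm.md D hks p
      have hmη : MD η p := Tst.md hη p
      have ddf : ∀ i, dd f p i = (b ⨯₃ dd D.x p i) ⬝ᵥ D.N p + (k p) ⬝ᵥ dd D.N p i :=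
        fun i => dd_kf hmx hmN a b i
      have ddc : ∀ j i, dd (c j) p i =
          ((b ⨯₃ dd D.x p i) ⨯₃ D.N p + k p ⨯₃ dd D.N p i) j := by
        intro j i
        have e := dd_cross hmk hmN j i
        rw [dd_k hmx a b i] at e
        exact e
      have ddP : ∀ j i, dd (P j) p i =
          (-(2 * D.H) • ((b ⨯₃ dd D.x p i) ⨯₃ D.N p + k p ⨯₃ dd D.N p i)) j := by
        intro j i
        have e1 : dd (P j) p i = dd (fun _ : D.S => b j) p i +
            dd (fun q => (-(2 * D.H)) * c j q) p i :=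
          dd_add (md_const (b j) p) ((md_const _ p).mul (Dat.Sm.md D (hcs j) p)) i
        rw [e1, dd_const, dd_const_mul (Dat.Sm.md D (hcs j) p), ddc, zero_add]
        rfl
      have ddR : ∀ j i, dd (R j) p i =
          (-((b ⨯₃ dd D.x p i) ⨯₃ D.N p + k p ⨯₃ dd D.N p i)) j := by
        intro j i
        have e1 : dd (R j) p i = (-1) * dd (c j) p i :=
          dd_const_mul (Dat.Sm.md D (hcs j) p) _ i
        rw [e1, ddc, Pi.neg_apply]
        ring
      have hs := h1 _ _ _ _ _ _ hF (k p) b (dd η p 0) (dd η p 1)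
      have hj := h2 _ _ _ _ _ _ hF (k p) b
      -- translation
      have b1 : ∀ j, br D.x D.N (fun q => P j q * η q) (fun q => D.x q j) p =
          P j p * brk (dd D.x p 0) (dd D.x p 1) (D.N p) (dd η p 0) (dd η p 1) (dd D.x p 0 j)
            (dd D.x p 1 j) + η p * brk (dd D.x p 0) (dd D.x p 1) (D.N p) (dd (P j) p 0)
              (dd (P j) p 1) (dd D.x p 0 j) (dd D.x p 1 j) := by
        intro j
        rw [br_mul (Dat.Sm.md D (hPs j) p) hmη]
        unfold br
        rw [dd_coord hmx, dd_coord hmx]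
      have b2 : ∀ j, br D.x D.N (fun q => R j q * η q) (fun q => D.N q j) p =
          R j p * brk (dd D.x p 0) (dd D.x p 1) (D.N p) (dd η p 0) (dd η p 1) (dd D.N p 0 j)
            (dd D.N p 1 j) + η p * brk (dd D.x p 0) (dd D.x p 1) (D.N p) (dd (R j) p 0)
              (dd (R j) p 1) (dd D.N p 0 j) (dd D.N p 1 j) := by
        intro j
        rw [br_mul (Dat.Sm.md D (hRs j) p) hmη]
        unfold br
        rw [dd_coord hmN, dd_coord hmN]
      have hsf : sf D.x D.N p = ∑ i : Fin 3, bil (dd D.x p 0) (dd D.x p 1) (dd D.N p 0 i)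
          (dd D.N p 1 i) (dd D.N p 0 i) (dd D.N p 1 i) := by
        unfold sf gr
        refine Finset.sum_congr rfl fun i _ => ?_
        rw [dd_coord hmN, dd_coord hmN]
      have hfp : f p = k p ⬝ᵥ D.N p := rfl
      have hPp : ∀ j, P j p = (b - (2 * D.H) • (k p ⨯₃ D.N p)) j := by
        intro j
        rw [Pi.sub_apply, Pi.smul_apply, smul_eq_mul]
        show b j + (-(2 * D.H)) * (k p ⨯₃ D.N p) j = _
        ring
      have hRp : ∀ j, R j p = (-(k p ⨯₃ D.N p)) j := by
        intro j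
        rw [Pi.neg_apply]
        show (-1) * (k p ⨯₃ D.N p) j = _
        ring
      have hgr : gr D.x f η p = bil (dd D.x p 0) (dd D.x p 1) (dd η p 0) (dd η p 1)
          ((b ⨯₃ dd D.x p 0) ⬝ᵥ D.N p + (k p) ⬝ᵥ dd D.N p 0)
          ((b ⨯₃ dd D.x p 1) ⬝ᵥ D.N p + (k p) ⬝ᵥ dd D.N p 1) := by
        rw [gr_comm]
        unfold gr
        rw [ddf, ddf]
      simp only [b1, b2, Finset.sum_add_distrib, ← Finset.mul_sum, ddP, ddR, hPp, hRp]
      rw [hsf, hfp, hgr]
      linear_combination -hs + η p * hj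
    · have hp' : p ∉ tsupport η := fun h => hp (hη.2 h)
      have hη0 : η p = 0 := image_eq_zero_of_notMem_tsupport hp'
      have hz : ∀ (g : D.S → ℝ) (h : D.S → ℝ), br D.x D.N (fun q => g q * η q) h p = 0 :=
        fun g h => br_zero (fun h' => hp' (tsupport_mul_subset_right h'))
      rw [gr_zero hp', hη0, Finset.sum_eq_zero fun j _ => hz _ _,
        Finset.sum_eq_zero fun j _ => hz _ _]
      ring
  -- continuity
  have hgc : ∀ g h : D.S → ℝ, D.Sm g → D.Sm h → Integrable (br D.x D.N g h) D.μ :=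
    fun g h hg hh => D.cont_int (h5 D g h hg hh).2
  have hPη : ∀ j, Tst D.int (fun q => P j q * η q) := fun j => Tst.mul_left (hPs j) hη
  have hRη : ∀ j, Tst D.int (fun q => R j q * η q) := fun j => Tst.mul_left (hRs j) hη
  have hsfc : Continuous (sf D.x D.N) := by
    have e : sf D.x D.N = fun p => ∑ i : Fin 3,
        gr D.x (fun s => D.N s i) (fun s => D.N s i) p := rfl
    rw [e]
    exact continuous_finsetSum _ fun i _ => (h5 D _ _ (hNj i) (hNj i)).1
  have hA : Integrable (fun p => sf D.x D.N p * f p * η p) D.μ :=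
    D.cont_int ((hsfc.mul (Dat.Sm.cont D hfs)).mul (Dat.Sm.cont D hη.1))
  have hB : Integrable (fun p => ∑ j : Fin 3,
      br D.x D.N (fun q => P j q * η q) (fun q => D.x q j) p) D.μ :=
    integrable_finsetSum _ fun j _ => hgc _ _ (hPη j).1 (hxj j)
  have hC : Integrable (fun p => ∑ j : Fin 3,
      br D.x D.N (fun q => R j q * η q) (fun q => D.N q j) p) D.μ :=
    integrable_finsetSum _ fun j _ => hgc _ _ (hRη j).1 (hNj j)
  rw [integral_congr_ae (Eventually.of_forall key)]
  have e1 : ∫ p, (sf D.x D.N p * f p * η p -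
      ∑ j, br D.x D.N (fun q => P j q * η q) (fun q => D.x q j) p -
      ∑ j, br D.x D.N (fun q => R j q * η q) (fun q => D.N q j) p) ∂D.μ =
      ∫ p, (sf D.x D.N p * f p * η p -
      ∑ j, br D.x D.N (fun q => P j q * η q) (fun q => D.x q j) p) ∂D.μ -
      ∫ p, ∑ j, br D.x D.N (fun q => R j q * η q) (fun q => D.N q j) p ∂D.μ :=
    integral_sub (hA.sub hB) hC
  have e2 : ∫ p, (sf D.x D.N p * f p * η p -
      ∑ j, br D.x D.N (fun q => P j q * η q) (fun q => D.x q j) p) ∂D.μ =
      ∫ p, sf D.x D.N p * f p * η p ∂D.μ -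
      ∫ p, ∑ j, br D.x D.N (fun q => P j q * η q) (fun q => D.x q j) p ∂D.μ :=
    integral_sub hA hB
  have e3 : ∫ p, ∑ j, br D.x D.N (fun q => P j q * η q) (fun q => D.x q j) p ∂D.μ = 0 := by
    rw [integral_finsetSum _ fun j _ => hgc _ _ (hPη j).1 (hxj j)]
    exact Finset.sum_eq_zero fun j _ => h4 D _ _ (hPη j) (hxj j)
  have e4 : ∫ p, ∑ j, br D.x D.N (fun q => R j q * η q) (fun q => D.N q j) p ∂D.μ = 0 := by
    rw [integral_finsetSum _ fun j _ => hgc _ _ (hRη j).1 (hNj j)]
    exact Finset.sum_eq_zero fun j _ => h4 D _ _ (hRη j) (hNj j)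
  rw [e1, e2, e3, e4, sub_zero, sub_zero]

end Pool.Agent.H90.CM
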